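import Pool.Agent.Lib.LU1_h15.Basic

/-!
# DefectTwo, rank one core, section 3a: elements of least degree (pure valuation theory)

`L` is a field with a map to the algebraically closed field `Ω`, `v` a real valuation of `Ω`,
`z : Ω` an element which has no best approximation in `L`.
-/

set_option autoImplicit false

open Polynomial

namespace Pool.Agent.D2

open Pool.Agent.H15JM (RVal)
open Pool.Agent.LU1 (VPos val_add_vpos)

universe u w

section Basic

variable {L : Type w} {Ω : Type u} [Field L] [Field Ω] [Algebra L Ω]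

/-- `α(ψ) = v (z - ψ)`. -/
def al (v : RVal Ω) (z : Ω) (ψ : L) : ℝ := v (z - algebraMap L Ω ψ)

/-- `z` is not in `L` and has no best approximation in `L`. -/
structure Star (L : Type w) {Ω : Type u} [Field L] [Field Ω] [Algebra L Ω] (v : RVal Ω) (z : Ω) :
    Prop where
  ne : ∀ ψ : L, z - algebraMap L Ω ψ ≠ 0
  nomax : ∀ ψ : L, ∃ ψ' : L, al v z ψ < al v z ψ'

/-- `ζ` is nearer to `z` than all elements of `L`. -/
def Near (L : Type w) {Ω : Type u} [Field L] [Field Ω] [Algebra L Ω] (v : RVal Ω) (z ζ : Ω) :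
    Prop := z - ζ ≠ 0 → ∀ ψ : L, al v z ψ < v (z - ζ)

/-- `p ψ` holds for all `ψ` sufficiently near to `z`. -/
def Ev (v : RVal Ω) (z : Ω) (p : L → Prop) : Prop :=
  ∃ ψ₀ : L, ∀ ψ : L, al v z ψ₀ ≤ al v z ψ → p ψ

variable {v : RVal Ω} {z : Ω}

theorem Ev.mono {p q : L → Prop} (h : Ev v z p) (hpq : ∀ ψ, p ψ → q ψ) : Ev v z q := by
  obtain ⟨ψ₀, h₀⟩ := h
  exact ⟨ψ₀, fun ψ hψ => hpq ψ (h₀ ψ hψ)⟩

theorem Ev.of_forall {p : L → Prop} (h : ∀ ψ, p ψ) : Ev v z p := ⟨0, fun ψ _ => h ψ⟩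

theorem Ev.and {p q : L → Prop} (h : Ev v z p) (h' : Ev v z q) :
    Ev v z fun ψ : L => p ψ ∧ q ψ := by
  obtain ⟨ψ₀, h₀⟩ := h
  obtain ⟨ψ₁, h₁⟩ := h'
  rcases le_total (al v z ψ₀) (al v z ψ₁) with hle | hle
  · exact ⟨ψ₁, fun ψ hψ => ⟨h₀ ψ (hle.trans hψ), h₁ ψ hψ⟩⟩
  · exact ⟨ψ₀, fun ψ hψ => ⟨h₀ ψ hψ, h₁ ψ (hle.trans hψ)⟩⟩

theorem Ev.all {ι : Type*} (s : Finset ι) {p : ι → L → Prop} (h : ∀ i ∈ s, Ev v z (p i)) :
    Ev v z fun ψ : L => ∀ i ∈ s, p i ψ := by
  classical
  induction s using Finset.induction_on with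
  | empty => exact Ev.of_forall fun ψ i hi => absurd hi (Finset.notMem_empty i)
  | insert a s ha ih =>
    refine ((h a (Finset.mem_insert_self a s)).and
      (ih fun i hi => h i (Finset.mem_insert_of_mem hi))).mono fun ψ hψ i hi => ?_
    rcases Finset.mem_insert.mp hi with rfl | hi
    · exact hψ.1
    · exact hψ.2 i hi

theorem Ev.ex {p : L → Prop} (h : Ev v z p) : ∃ ψ, p ψ := by
  obtain ⟨ψ₀, h₀⟩ := h
  exact ⟨ψ₀, h₀ ψ₀ le_rfl⟩

theorem Star.ev_gt (hs : Star L v z) (ψ₀ : L) : Ev v z fun ψ : L => al v z ψ₀ < al v z ψ := by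
  obtain ⟨ψ₁, h₁⟩ := hs.nomax ψ₀
  exact ⟨ψ₁, fun ψ hψ => h₁.trans_le hψ⟩

theorem Star.ex_gt (hs : Star L v z) {p : L → Prop} (h : Ev v z p) (ψ₀ : L) :
    ∃ ψ, p ψ ∧ al v z ψ₀ < al v z ψ := (h.and (hs.ev_gt ψ₀)).ex

/-- An affine function of `α(ψ)` with nonzero slope has a definite sign near `z`. -/
theorem Star.sign (hs : Star L v z) (a b : ℝ) (hb : b ≠ 0) :
    (Ev v z fun ψ : L => 0 < a + b * al v z ψ) ∨ Ev v z fun ψ : L => a + b * al v z ψ < 0 := by
  rcases lt_or_gt_of_ne hb with hb | hb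
  · by_cases h : ∃ ψ₀ : L, a + b * al v z ψ₀ < 0
    · obtain ⟨ψ₀, h₀⟩ := h
      right
      exact ⟨ψ₀, fun ψ hψ => by nlinarith⟩
    · push Not at h
      left
      refine Ev.of_forall fun ψ => ?_
      obtain ⟨ψ', h'⟩ := hs.nomax ψ
      have := h ψ'
      nlinarith
  · by_cases h : ∃ ψ₀ : L, 0 < a + b * al v z ψ₀
    · obtain ⟨ψ₀, h₀⟩ := h
      left
      exact ⟨ψ₀, fun ψ hψ => by nlinarith⟩
    · push Not at h
      right
      refine Ev.of_forall fun ψ => ?_
      obtain ⟨ψ', h'⟩ := hs.nomax ψ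
      have := h ψ'
      nlinarith

/-- Two affine functions of `α(ψ)` which agree near `z` are equal. -/
theorem Star.affine_eq (hs : Star L v z) {a b a' b' : ℝ}
    (h : Ev v z fun ψ : L => a + b * al v z ψ = a' + b' * al v z ψ) : a = a' ∧ b = b' := by
  obtain ⟨ψ₀, h₀⟩ := h
  obtain ⟨ψ₁, h₁⟩ := hs.nomax ψ₀
  have e0 := h₀ ψ₀ le_rfl
  have e1 := h₀ ψ₁ h₁.le
  have hb : b = b' := by
    have : (b - b') * (al v z ψ₁ - al v z ψ₀) = 0 := by linarith
    rcases mul_eq_zero.mp this with h | h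
    · linarith
    · linarith
  subst hb
  exact ⟨by linarith, rfl⟩

/-- A near element has the same distances as `z`. -/
theorem Near.sub (hs : Star L v z) {ζ : Ω} (h : Near L v z ζ) (ψ : L) :
    algebraMap L Ω ψ - ζ ≠ 0 ∧ v (algebraMap L Ω ψ - ζ) = al v z ψ := by
  have h1 := hs.ne ψ
  by_cases h0 : z - ζ = 0
  · have : ζ = z := by rw [sub_eq_zero] at h0; exact h0.symm
    subst this
    have h2 : algebraMap L Ω ψ - ζ = -(ζ - algebraMap L Ω ψ) := by ring
    rw [h2]
    exact ⟨neg_ne_zero.mpr h1, v.map_neg _ h1⟩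
  · have h3 := v.add_of_lt (neg_ne_zero.mpr h1) h0 (by rw [v.map_neg _ h1]; exact h h0 ψ)
    have h2 : algebraMap L Ω ψ - ζ = -(z - algebraMap L Ω ψ) + (z - ζ) := by ring
    rw [h2]
    exact ⟨h3.1, h3.2.trans (v.map_neg _ h1)⟩

/-- The distance of a far element. -/
theorem far_sub (hs : Star L v z) {ζ : Ω} {ψ : L} (h0 : z - ζ ≠ 0)
    (h : v (z - ζ) < al v z ψ) :
    algebraMap L Ω ψ - ζ ≠ 0 ∧ v (algebraMap L Ω ψ - ζ) = v (z - ζ) := by
  have h1 := hs.ne ψ
  have h3 := v.add_of_lt h0 (neg_ne_zero.mpr h1) (by rw [v.map_neg _ h1]; exact h)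
  have h2 : algebraMap L Ω ψ - ζ = (z - ζ) + -(z - algebraMap L Ω ψ) := by ring
  rw [h2]
  exact h3

/-- `ψ` is nearer to `z` than the far elements of `R`. -/
def Beyond (v : RVal Ω) (z : Ω) (R : Multiset Ω) (ψ : L) : Prop :=
  ∀ ζ ∈ R, ¬ Near L v z ζ → v (z - ζ) < al v z ψ

theorem Star.ev_beyond (hs : Star L v z) (R : Multiset Ω) : Ev v z (Beyond (L := L) v z R) := by
  classical
  have h : Ev v z fun ψ : L => ∀ ζ ∈ R.toFinset, ¬ Near L v z ζ → v (z - ζ) < al v z ψ := by
    refine Ev.all _ fun ζ _ => ?_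
    by_cases hn : Near L v z ζ
    · exact Ev.of_forall fun ψ h => absurd hn h
    · have hn' := hn
      unfold Near at hn'
      push Not at hn'
      obtain ⟨h0, ψ₀, h₀⟩ := hn'
      exact (hs.ev_gt ψ₀).mono fun ψ hψ _ => h₀.trans_lt hψ
  exact h.mono fun ψ hψ ζ hζ => hψ ζ (Multiset.mem_toFinset.mpr hζ)

end Basic

/-! ## Polynomials with coefficients of positive value -/

section Pos

variable {Ω : Type u} [Field Ω] {v : RVal Ω}

/-- All coefficients have positive value. -/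
def PosP (v : RVal Ω) (E : Polynomial Ω) : Prop := ∀ j, VPos v (E.coeff j)

/-- All coefficients have nonnegative value. -/
def IntP (v : RVal Ω) (E : Polynomial Ω) : Prop := ∀ j, v.Ge 0 (E.coeff j)

theorem VPos.sum {ι : Type*} (s : Finset ι) (f : ι → Ω) (hf : ∀ i ∈ s, VPos v (f i)) :
    VPos v (∑ i ∈ s, f i) := by
  classical
  induction s using Finset.induction_on with
  | empty => simpa using LU1.VPos.zero
  | insert a s ha ih =>
    rw [Finset.sum_insert ha]
    exact (hf a (Finset.mem_insert_self a s)).add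
      (ih fun i hi => hf i (Finset.mem_insert_of_mem hi))

theorem PosP.add {E F : Polynomial Ω} (hE : PosP v E) (hF : PosP v F) : PosP v (E + F) := fun j => by
  rw [coeff_add]
  exact (hE j).add (hF j)

theorem PosP.int {E : Polynomial Ω} (hE : PosP v E) : IntP v E := fun j => (hE j).ge

theorem IntP.add {E F : Polynomial Ω} (hE : IntP v E) (hF : IntP v F) : IntP v (E + F) := fun j => by
  rw [coeff_add]
  exact (hE j).add (hF j)

theorem PosP.mul {E F : Polynomial Ω} (hE : PosP v E) (hF : IntP v F) : PosP v (E * F) := fun j => by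
  rw [coeff_mul]
  exact VPos.sum _ _ fun i _ => (hE i.1).mul (hF i.2)

theorem IntP.mul {E F : Polynomial Ω} (hE : IntP v E) (hF : IntP v F) : IntP v (E * F) := fun j => by
  rw [coeff_mul]
  refine RVal.Ge.sum _ _ fun i _ => ?_
  have := (hE i.1).mul (hF i.2)
  rwa [add_zero] at this

theorem IntP.cst {a : Ω} (ha : v.Ge 0 a) : IntP v (C a) := fun j => by
  rw [coeff_C]
  split
  · exact ha
  · exact RVal.Ge.zero

theorem PosP.cst {a : Ω} (ha : VPos v a) : PosP v (Polynomial.C a) := fun j => by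
  rw [coeff_C]
  split
  · exact ha
  · exact LU1.VPos.zero

theorem ge_one : v.Ge 0 (1 : Ω) := fun _ => by rw [v.map_one]

theorem IntP.one : IntP v (1 : Polynomial Ω) := by
  rw [← Polynomial.C_1]
  exact IntP.cst ge_one

theorem IntP.var : IntP v (X : Polynomial Ω) := fun j => by
  rw [coeff_X]
  split
  · exact ge_one
  · exact RVal.Ge.zero

theorem IntP.pow {E : Polynomial Ω} (hE : IntP v E) (n : ℕ) : IntP v (E ^ n) := by
  induction n with
  | zero => rw [pow_zero]; exact IntP.one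
  | succ n ih => rw [pow_succ]; exact ih.mul hE

/-- `X - 1`. -/
theorem IntP.var_sub : IntP v (X + Polynomial.C (-1) : Polynomial Ω) :=
  IntP.var.add (IntP.cst fun _ => by rw [v.map_neg_one])

theorem PosP.zero : PosP v (0 : Polynomial Ω) := fun j => by
  rw [coeff_zero]
  exact LU1.VPos.zero

end Pos

/-! ## The main computation: the polynomial `P (ψ + (z - ψ) X)` -/

section Master

variable {L : Type w} {Ω : Type u} [Field L] [Field Ω] [Algebra L Ω] {v : RVal Ω} {z : Ω}

open Classical in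
/-- The number of near elements. -/
noncomputable def nN (L : Type w) {Ω : Type u} [Field L] [Field Ω] [Algebra L Ω] (v : RVal Ω)
    (z : Ω) (R : Multiset Ω) : ℕ := (R.filter fun ζ => Near L v z ζ).card

open Classical in
/-- The sum of the distances of the far elements. -/
noncomputable def fS (L : Type w) {Ω : Type u} [Field L] [Field Ω] [Algebra L Ω] (v : RVal Ω)
    (z : Ω) (R : Multiset Ω) : ℝ :=
  ((R.filter fun ζ => ¬ Near L v z ζ).map fun ζ => v (z - ζ)).sum

/-- Linear factors. -/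
noncomputable def lf (z p ζ : Ω) : Polynomial Ω := C (z - p) * X + C (p - ζ)

theorem master_aux (hs : Star L v z) (ψ : L) (R : Multiset Ω) (hR : Beyond v z R ψ) :
    ∃ c : Ω, c ≠ 0 ∧ v c = fS L v z R + nN L v z R * al v z ψ ∧ ∃ E : Polynomial Ω, PosP v E ∧
      (R.map (lf z (algebraMap L Ω ψ))).prod = C c * ((X + C (-1)) ^ (nN L v z R) + E) := by
  classical
  induction R using Multiset.induction_on with
  | empty =>
    refine ⟨1, one_ne_zero, by simp [fS, nN, v.map_one], 0, PosP.zero, by simp [nN]⟩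
  | cons ζ R ih =>
    obtain ⟨c, hc, hvc, E, hE, hP⟩ := ih fun ζ' h' => hR ζ' (Multiset.mem_cons_of_mem h')
    rw [Multiset.map_cons, Multiset.prod_cons, hP]
    have hz := hs.ne ψ
    by_cases hn : Near L v z ζ
    · have hN : nN L v z (ζ ::ₘ R) = nN L v z R + 1 := by
        unfold nN
        rw [Multiset.filter_cons_of_pos _ hn, Multiset.card_cons]
      have hS : fS L v z (ζ ::ₘ R) = fS L v z R := by
        unfold fS
        rw [Multiset.filter_cons_of_neg (p := fun ζ => ¬ Near L v z ζ) _ (not_not.mpr hn)]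
      -- the factor is `(z - ψ) (X - 1 + ε)`
      set ε : Ω := (z - ζ) / (z - algebraMap L Ω ψ) with hε
      have hεp : VPos v ε := by
        intro h0
        have h1 : z - ζ ≠ 0 := fun h => h0 (by rw [hε, h, zero_div])
        rw [hε, v.map_div h1 hz]
        have := hn h1 ψ
        unfold al at this
        linarith
      have hlf : lf z (algebraMap L Ω ψ) ζ
          = C (z - algebraMap L Ω ψ) * ((X + C (-1)) + C ε) := by
        have : algebraMap L Ω ψ - ζ = (z - algebraMap L Ω ψ) * (-1 + ε) := by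
          rw [hε]
          field_simp
          ring
        rw [lf, this]
        simp only [map_mul, map_add]
        ring
      refine ⟨(z - algebraMap L Ω ψ) * c, mul_ne_zero hz hc, ?_,
        E * (X + C (-1)) + C ε * (X + C (-1)) ^ (nN L v z R) + C ε * E, ?_, ?_⟩
      · rw [v.map_mul hz hc, hvc, hS, hN]
        push_cast
        unfold al
        ring
      · exact ((hE.mul IntP.var_sub).add ((PosP.cst hεp).mul (IntP.var_sub.pow _))).add
          ((PosP.cst hεp).mul hE.int)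
      · rw [hlf, hN, pow_succ]
        simp only [map_mul]
        ring
    · have hN : nN L v z (ζ ::ₘ R) = nN L v z R := by
        unfold nN
        rw [Multiset.filter_cons_of_neg _ hn]
      have hS : fS L v z (ζ ::ₘ R) = v (z - ζ) + fS L v z R := by
        unfold fS
        rw [Multiset.filter_cons_of_pos (p := fun ζ => ¬ Near L v z ζ) _ hn, Multiset.map_cons,
          Multiset.sum_cons]
      have hfar := hR ζ (Multiset.mem_cons_self ζ R) hn
      have h0 : z - ζ ≠ 0 := by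
        intro h0
        exact hn fun h => absurd h0 h
      obtain ⟨h1, h2⟩ := far_sub hs h0 hfar
      set ε : Ω := (z - algebraMap L Ω ψ) / (algebraMap L Ω ψ - ζ) with hε
      have hεp : VPos v ε := by
        intro _
        rw [hε, v.map_div hz h1, h2]
        unfold al at hfar
        linarith
      have hlf : lf z (algebraMap L Ω ψ) ζ = C (algebraMap L Ω ψ - ζ) * (1 + C ε * X) := by
        have : z - algebraMap L Ω ψ = (algebraMap L Ω ψ - ζ) * ε := by
          rw [hε]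
          field_simp
        rw [lf]
        conv_lhs => rw [this]
        simp only [map_mul]
        ring
      refine ⟨(algebraMap L Ω ψ - ζ) * c, mul_ne_zero h1 hc, ?_,
        E + C ε * (X * (X + C (-1)) ^ (nN L v z R)) + C ε * (X * E), ?_, ?_⟩
      · rw [v.map_mul h1 hc, hvc, hS, hN, h2]
        ring
      · exact (hE.add ((PosP.cst hεp).mul (IntP.var.mul (IntP.var_sub.pow _)))).add
          ((PosP.cst hεp).mul (IntP.var.mul hE.int))
      · rw [hlf, hN]
        simp only [map_mul]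
        ring

/-- `v P` for a polynomial over `Ω`: the value of the leading coefficient times the far
distances. -/
noncomputable def ph (L : Type w) {Ω : Type u} [Field L] [Field Ω] [Algebra L Ω] (v : RVal Ω)
    (z : Ω) (P : Polynomial Ω) : ℝ := v P.leadingCoeff + fS L v z P.roots

/-- Natural numbers are zero or of value zero. -/
def NatU (v : RVal Ω) : Prop := ∀ n : ℕ, (n : Ω) ≠ 0 → v (n : Ω) = 0

theorem comp_lf {P : Polynomial Ω} (hsp : P.Splits) (z a : Ω) :
    P.comp (C (z - a) * X + C a) = C P.leadingCoeff * (P.roots.map (lf z a)).prod := by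
  conv_lhs => rw [hsp.eq_prod_roots]
  rw [mul_comp, C_comp, multiset_prod_comp, Multiset.map_map]
  congr 2
  refine Multiset.map_congr rfl fun ζ _ => ?_
  simp only [Function.comp, lf, sub_comp, X_comp, C_comp, map_sub]
  ring

theorem comp_coeff (P : Polynomial Ω) (b a : Ω) (j : ℕ) :
    (P.comp (C b * X + C a)).coeff j = (hasseDeriv j P).eval a * b ^ j := by
  have : P.comp (C b * X + C a) = (taylor a P).comp (C b * X) := by
    rw [taylor_apply, comp_assoc]
    congr 1
    simp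
  rw [this, comp_C_mul_X_coeff, taylor_coeff]

/-- **The main computation.** -/
theorem master (hs : Star L v z) {P : Polynomial Ω} (hP : P ≠ 0) (hsp : P.Splits) {ψ : L}
    (hψ : Beyond v z P.roots ψ) :
    ∃ c : Ω, c ≠ 0 ∧ v c = ph L v z P + nN L v z P.roots * al v z ψ ∧ ∀ j, ∃ e, VPos v e ∧
      (hasseDeriv j P).eval (algebraMap L Ω ψ) * (z - algebraMap L Ω ψ) ^ j
        = c * ((-1) ^ (nN L v z P.roots - j) * ((nN L v z P.roots).choose j : Ω) + e) := by
  obtain ⟨c, hc, hvc, E, hE, h⟩ := master_aux hs ψ P.roots hψ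
  have hl : P.leadingCoeff ≠ 0 := leadingCoeff_ne_zero.mpr hP
  refine ⟨P.leadingCoeff * c, mul_ne_zero hl hc, ?_, fun j => ⟨E.coeff j, hE j, ?_⟩⟩
  · rw [v.map_mul hl hc, hvc, ph]
    ring
  · rw [← comp_coeff, comp_lf hsp, h, ← mul_assoc, ← C_mul, coeff_C_mul, coeff_add,
      coeff_X_add_C_pow]

theorem val_pow_sub (hs : Star L v z) (ψ : L) (j : ℕ) :
    (z - algebraMap L Ω ψ) ^ j ≠ 0 ∧ v ((z - algebraMap L Ω ψ) ^ j) = j * al v z ψ :=
  ⟨pow_ne_zero _ (hs.ne ψ), v.map_pow (hs.ne ψ) j⟩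

theorem neg_one_pow_val (n : ℕ) : (-1 : Ω) ^ n ≠ 0 ∧ v ((-1 : Ω) ^ n) = 0 := by
  refine ⟨pow_ne_zero _ (neg_ne_zero.mpr one_ne_zero), ?_⟩
  rw [v.map_pow (neg_ne_zero.mpr one_ne_zero), v.map_neg_one, mul_zero]

theorem val_hasse (hs : Star L v z) (hk : NatU v) {P : Polynomial Ω} (hP : P ≠ 0)
    (hsp : P.Splits) {ψ : L} (hψ : Beyond v z P.roots ψ) {j : ℕ} (hj : ((nN L v z P.roots).choose j : Ω) ≠ 0) :
    (hasseDeriv j P).eval (algebraMap L Ω ψ) ≠ 0 ∧
      v ((hasseDeriv j P).eval (algebraMap L Ω ψ))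
        = ph L v z P + (nN L v z P.roots - j) * al v z ψ := by
  obtain ⟨c, hc, hvc, h⟩ := master hs hP hsp hψ
  obtain ⟨e, he, h⟩ := h j
  obtain ⟨h1, h2⟩ := neg_one_pow_val (v := v) (nN L v z P.roots - j)
  obtain ⟨h3, h4⟩ := val_add_vpos (mul_ne_zero h1 hj)
    (by rw [v.map_mul h1 hj, h2, hk _ hj, add_zero]) he
  obtain ⟨h5, h6⟩ := val_pow_sub hs ψ j
  have h7 : (hasseDeriv j P).eval (algebraMap L Ω ψ) ≠ 0 := by
    intro h0
    rw [h0, zero_mul] at h
    exact mul_ne_zero hc h3 h.symm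
  refine ⟨h7, ?_⟩
  have h8 := congrArg v h
  rw [v.map_mul h7 h5, v.map_mul hc h3, h4, hvc, h6] at h8
  linarith

theorem gt_hasse (hs : Star L v z) {P : Polynomial Ω} (hP : P ≠ 0) (hsp : P.Splits)
    {ψ : L} (hψ : Beyond v z P.roots ψ) {j : ℕ} (hj : ((nN L v z P.roots).choose j : Ω) = 0)
    (h0 : (hasseDeriv j P).eval (algebraMap L Ω ψ) ≠ 0) :
    ph L v z P + (nN L v z P.roots - j) * al v z ψ
      < v ((hasseDeriv j P).eval (algebraMap L Ω ψ)) := by
  obtain ⟨c, hc, hvc, h⟩ := master hs hP hsp hψ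
  obtain ⟨e, he, h⟩ := h j
  rw [hj, mul_zero, zero_add] at h
  obtain ⟨h5, h6⟩ := val_pow_sub hs ψ j
  have h7 : e ≠ 0 := by
    rintro rfl
    rw [mul_zero] at h
    exact mul_ne_zero h0 h5 h
  have h8 := congrArg v h
  rw [v.map_mul h0 h5, v.map_mul hc h7, hvc, h6] at h8
  have := he h7
  linarith

theorem ge_hasse (hs : Star L v z) (hk : NatU v) {P : Polynomial Ω} (hP : P ≠ 0)
    (hsp : P.Splits) {ψ : L} (hψ : Beyond v z P.roots ψ) (j : ℕ) :
    v.Ge (ph L v z P + (nN L v z P.roots - j) * al v z ψ)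
      ((hasseDeriv j P).eval (algebraMap L Ω ψ)) := by
  intro h0
  by_cases hj : ((nN L v z P.roots).choose j : Ω) = 0
  · exact (gt_hasse hs hP hsp hψ hj h0).le
  · exact (val_hasse hs hk hP hsp hψ hj).2.ge

theorem val_eval (hs : Star L v z) (hk : NatU v) {P : Polynomial Ω} (hP : P ≠ 0)
    (hsp : P.Splits) {ψ : L} (hψ : Beyond v z P.roots ψ) :
    P.eval (algebraMap L Ω ψ) ≠ 0 ∧
      v (P.eval (algebraMap L Ω ψ)) = ph L v z P + nN L v z P.roots * al v z ψ := by
  have := val_hasse hs hk hP hsp hψ (j := 0) (by simp)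
  simpa using this

/-- The value at a near element of a polynomial without near roots. -/
theorem val_near {P : Polynomial Ω} (hP : P ≠ 0) (hsp : P.Splits)
    (h0 : nN L v z P.roots = 0) {η : Ω} (hη : Near L v z η) :
    P.eval η ≠ 0 ∧ v (P.eval η) = ph L v z P := by
  classical
  have hl : P.leadingCoeff ≠ 0 := leadingCoeff_ne_zero.mpr hP
  have hfar : ∀ ζ ∈ P.roots, ¬ Near L v z ζ := by
    intro ζ hζ hn
    have : ζ ∈ P.roots.filter fun ζ => Near L v z ζ := Multiset.mem_filter.mpr ⟨hζ, hn⟩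
    unfold nN at h0
    rw [Multiset.card_eq_zero] at h0
    have h1 : (P.roots.filter fun ζ => Near L v z ζ) = 0 := h0
    rw [h1] at this
    exact absurd this (Multiset.notMem_zero ζ)
  have key : ∀ R : Multiset Ω, (∀ ζ ∈ R, ¬ Near L v z ζ) →
      (R.map fun ζ => η - ζ).prod ≠ 0 ∧ v (R.map fun ζ => η - ζ).prod = fS L v z R := by
    intro R
    induction R using Multiset.induction_on with
    | empty =>
      intro _
      simp [fS, v.map_one]
    | cons ζ R ih =>
      intro hR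
      obtain ⟨h1, h2⟩ := ih fun ζ' h' => hR ζ' (Multiset.mem_cons_of_mem h')
      have hn := hR ζ (Multiset.mem_cons_self ζ R)
      have hS : fS L v z (ζ ::ₘ R) = v (z - ζ) + fS L v z R := by
        unfold fS
        rw [Multiset.filter_cons_of_pos (p := fun ζ => ¬ Near L v z ζ) _ hn, Multiset.map_cons,
          Multiset.sum_cons]
      have hn' := hn
      unfold Near at hn'
      push Not at hn'
      obtain ⟨h3, ψ, h4⟩ := hn'
      have h5 : η - ζ ≠ 0 ∧ v (η - ζ) = v (z - ζ) := by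
        by_cases h6 : z - η = 0
        · have : η = z := by rw [sub_eq_zero] at h6; exact h6.symm
          rw [this]
          exact ⟨h3, rfl⟩
        · have h7 := v.add_of_lt h3 (neg_ne_zero.mpr h6)
            (by rw [v.map_neg _ h6]; exact h4.trans_lt (hη h6 ψ))
          have h8 : η - ζ = (z - ζ) + -(z - η) := by ring
          rw [h8]
          exact h7
      rw [Multiset.map_cons, Multiset.prod_cons, hS]
      exact ⟨mul_ne_zero h5.1 h1, by rw [v.map_mul h5.1 h1, h5.2, h2]⟩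
  obtain ⟨h1, h2⟩ := key _ hfar
  rw [hsp.eval_eq_prod_roots]
  exact ⟨mul_ne_zero hl h1, by rw [v.map_mul hl h1, h2]; rfl⟩

end Master

/-! ## Polynomials over `L` -/

section OverL

variable {L : Type w} {Ω : Type u} [Field L] [Field Ω] [Algebra L Ω]

/-- All polynomials over `L` split in `Ω`. -/
class SpL (L : Type w) (Ω : Type u) [Field L] [Field Ω] [Algebra L Ω] : Prop where
  splits : ∀ P : Polynomial L, (P.map (algebraMap L Ω)).Splits

instance (priority := 100) SpL.of_isAlgClosed (L : Type w) (Ω : Type u) [Field L] [Field Ω]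
    [Algebra L Ω] [IsAlgClosed Ω] : SpL L Ω := ⟨fun _ => IsAlgClosed.splits _⟩

/-- The number of near roots. -/
noncomputable def nr (v : RVal Ω) (z : Ω) (P : Polynomial L) : ℕ :=
  nN L v z (P.map (algebraMap L Ω)).roots

/-- The value of the leading coefficient plus the distances of the far roots. -/
noncomputable def phi (v : RVal Ω) (z : Ω) (P : Polynomial L) : ℝ :=
  ph L v z (P.map (algebraMap L Ω))

/-- `ψ` is nearer to `z` than the far roots of `P`. -/
def Fa (v : RVal Ω) (z : Ω) (P : Polynomial L) (ψ : L) : Prop :=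
  Beyond v z (P.map (algebraMap L Ω)).roots ψ

variable {v : RVal Ω} {z : Ω}

theorem Star.ev_fa (hs : Star L v z) (P : Polynomial L) : Ev v z (Fa v z P) := hs.ev_beyond _

theorem algebraMap_hasse (P : Polynomial L) (ψ : L) (j : ℕ) :
    algebraMap L Ω ((hasseDeriv j P).eval ψ)
      = (hasseDeriv j (P.map (algebraMap L Ω))).eval (algebraMap L Ω ψ) := by
  rw [← taylor_coeff, ← taylor_coeff, ← map_taylor, coeff_map]

theorem map_ne {P : Polynomial L} (hP : P ≠ 0) : P.map (algebraMap L Ω) ≠ 0 :=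
  (Polynomial.map_ne_zero_iff (algebraMap L Ω).injective).mpr hP

theorem ne_zero_of_map {x : L} (h : algebraMap L Ω x ≠ 0) : x ≠ 0 := by
  rintro rfl
  exact h (map_zero _)

theorem map_ne_zero' {x : L} (h : x ≠ 0) : algebraMap L Ω x ≠ 0 :=
  (map_ne_zero (algebraMap L Ω)).mpr h

variable [SpL L Ω]

theorem val_hasseL (hs : Star L v z) (hk : NatU v) {P : Polynomial L} (hP : P ≠ 0)
    {ψ : L} (hψ : Fa v z P ψ) {j : ℕ} (hj : ((nr v z P).choose j : Ω) ≠ 0) :
    (hasseDeriv j P).eval ψ ≠ 0 ∧ v (algebraMap L Ω ((hasseDeriv j P).eval ψ))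
      = phi v z P + (nr v z P - j) * al v z ψ := by
  have := val_hasse hs hk (map_ne hP) (SpL.splits P) hψ hj
  rw [← algebraMap_hasse] at this
  exact ⟨ne_zero_of_map this.1, this.2⟩

theorem gt_hasseL (hs : Star L v z) {P : Polynomial L} (hP : P ≠ 0)
    {ψ : L} (hψ : Fa v z P ψ) {j : ℕ} (hj : ((nr v z P).choose j : Ω) = 0)
    (h0 : (hasseDeriv j P).eval ψ ≠ 0) :
    phi v z P + (nr v z P - j) * al v z ψ < v (algebraMap L Ω ((hasseDeriv j P).eval ψ)) := by
  have h1 := map_ne_zero' (Ω := Ω) h0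
  rw [algebraMap_hasse] at h1 ⊢
  exact gt_hasse hs (map_ne hP) (SpL.splits P) hψ hj h1

theorem ge_hasseL (hs : Star L v z) (hk : NatU v) {P : Polynomial L} (hP : P ≠ 0)
    {ψ : L} (hψ : Fa v z P ψ) (j : ℕ) :
    v.Ge (phi v z P + (nr v z P - j) * al v z ψ)
      (algebraMap L Ω ((hasseDeriv j P).eval ψ)) := by
  rw [algebraMap_hasse]
  exact ge_hasse hs hk (map_ne hP) (SpL.splits P) hψ j

theorem val_evalL (hs : Star L v z) (hk : NatU v) {P : Polynomial L} (hP : P ≠ 0)
    {ψ : L} (hψ : Fa v z P ψ) :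
    P.eval ψ ≠ 0 ∧ v (algebraMap L Ω (P.eval ψ)) = phi v z P + nr v z P * al v z ψ := by
  have := val_hasseL hs hk hP hψ (j := 0) (by simp)
  simpa using this

/-- (K): a polynomial without near roots has constant value. -/
theorem val_evalK (hs : Star L v z) (hk : NatU v) {P : Polynomial L} (hP : P ≠ 0)
    (h0 : nr v z P = 0) {ψ : L} (hψ : Fa v z P ψ) :
    P.eval ψ ≠ 0 ∧ v (algebraMap L Ω (P.eval ψ)) = phi v z P := by
  have := val_evalL hs hk hP hψ
  rw [h0] at this
  simpa using this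

/-- (K): the other Taylor terms of a polynomial without near roots have greater value. -/
theorem gt_hasseK (hs : Star L v z) {P : Polynomial L} (hP : P ≠ 0)
    (h0 : nr v z P = 0) {ψ : L} (hψ : Fa v z P ψ) {j : ℕ} (hj : 0 < j)
    (hne : (hasseDeriv j P).eval ψ ≠ 0) :
    phi v z P < v (algebraMap L Ω ((hasseDeriv j P).eval ψ)) + j * al v z ψ := by
  have := gt_hasseL hs hP hψ (j := j) (by rw [h0, Nat.choose_eq_zero_of_lt hj, Nat.cast_zero]) hne
  rw [h0] at this
  push_cast at this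
  linarith

/-- (2.1): the value of `P` at a near element. -/
theorem val_nearL {P : Polynomial L} (hP : P ≠ 0) (h0 : nr v z P = 0) {η : Ω}
    (hη : Near L v z η) : aeval η P ≠ 0 ∧ v (aeval η P) = phi v z P := by
  rw [← eval_map_algebraMap]
  exact val_near (map_ne hP) (SpL.splits P) h0 hη

/-- (2.1): the value of `P` at a near element is the value of an element of `L`. -/
theorem val_near_mem (hs : Star L v z) (hk : NatU v) {P : Polynomial L} (hP : P ≠ 0)
    (h0 : nr v z P = 0) {η : Ω} (hη : Near L v z η) :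
    aeval η P ≠ 0 ∧ ∃ x : L, x ≠ 0 ∧ v (aeval η P) = v (algebraMap L Ω x) := by
  obtain ⟨h1, h2⟩ := val_nearL hP h0 hη
  obtain ⟨ψ, hψ⟩ := (hs.ev_fa P).ex
  obtain ⟨h3, h4⟩ := val_evalK hs hk hP h0 hψ
  exact ⟨h1, _, h3, h2.trans h4.symm⟩

omit [SpL L Ω] in
theorem near_not_mem (hs : Star L v z) (ψ : L) : ¬ Near L v z (algebraMap L Ω ψ) := fun h =>
  lt_irrefl _ (h (hs.ne ψ) ψ)

omit [SpL L Ω] in
/-- A polynomial has a near root iff `nr ≠ 0`. -/
theorem nr_pos_iff {P : Polynomial L} (hP : P ≠ 0) :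
    0 < nr v z P ↔ ∃ η, Near L v z η ∧ aeval η P = 0 := by
  classical
  have : 0 < nr v z P ↔ ∃ η, η ∈ (P.map (algebraMap L Ω)).roots.filter
      fun ζ => Near L v z ζ := by
    unfold nr nN
    exact Multiset.card_pos_iff_exists_mem
  rw [this]
  constructor
  · rintro ⟨η, hη⟩
    obtain ⟨h1, h2⟩ := Multiset.mem_filter.mp hη
    refine ⟨η, h2, ?_⟩
    rw [← eval_map_algebraMap]
    exact (mem_roots (map_ne hP)).mp h1
  · rintro ⟨η, h1, h2⟩
    refine ⟨η, Multiset.mem_filter.mpr ⟨(mem_roots (map_ne hP)).mpr ?_, h1⟩⟩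
    rw [← eval_map_algebraMap] at h2
    exact h2

/-! ### Elements of least degree -/

/-- `G` is monic of least degree with a near root. -/
structure KG (v : RVal Ω) (z : Ω) (G : Polynomial L) : Prop where
  monic : G.Monic
  pos : 0 < nr v z G
  least : ∀ P : Polynomial L, P ≠ 0 → P.natDegree < G.natDegree → nr v z P = 0

omit [SpL L Ω] in
theorem nr_mul_C {P : Polynomial L} (hP : P ≠ 0) {a : L} (ha : a ≠ 0) :
    0 < nr v z (P * C a) ↔ 0 < nr v z P := by
  rw [nr_pos_iff hP, nr_pos_iff (mul_ne_zero hP (C_ne_zero.mpr ha))]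
  simp only [map_mul, aeval_C, mul_eq_zero, map_ne_zero' (Ω := Ω) ha, or_false]

omit [SpL L Ω] in
/-- The existence of `G`. -/
theorem KG.exists {A : Polynomial L} (hA : A ≠ 0) (h : 0 < nr v z A) :
    ∃ G : Polynomial L, KG v z G ∧ G.natDegree ≤ A.natDegree := by
  classical
  have hex : ∃ d, ∃ P : Polynomial L, P ≠ 0 ∧ 0 < nr v z P ∧ P.natDegree = d :=
    ⟨_, A, hA, h, rfl⟩
  obtain ⟨P, hP, hn, hd⟩ := Nat.find_spec hex
  have hl : P.leadingCoeff ≠ 0 := leadingCoeff_ne_zero.mpr hP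
  have hdeg : (P * C P.leadingCoeff⁻¹).natDegree = P.natDegree :=
    natDegree_mul_C (inv_ne_zero hl)
  refine ⟨P * C P.leadingCoeff⁻¹, ⟨monic_mul_leadingCoeff_inv hP,
    (nr_mul_C hP (inv_ne_zero hl)).mpr hn, fun Q hQ hlt => ?_⟩, ?_⟩
  · by_contra h0
    have := Nat.find_min' hex ⟨Q, hQ, Nat.pos_of_ne_zero h0, rfl⟩
    omega
  · have := Nat.find_min' hex ⟨A, hA, h, rfl⟩
    omega

omit [SpL L Ω] in
theorem KG.natDegree_pos {G : Polynomial L} (hG : KG v z G) : 0 < G.natDegree := by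
  by_contra h0
  have h1 : G = 1 := hG.monic.natDegree_eq_zero.mp (by omega)
  have := (nr_pos_iff (v := v) (z := z) (Ω := Ω) hG.monic.ne_zero).mp hG.pos
  obtain ⟨η, _, h2⟩ := this
  rw [h1, map_one] at h2
  exact one_ne_zero h2

/-- The derivatives of `G` have no near roots. -/
theorem KG.nr_hasse {G : Polynomial L} (hG : KG v z G) {i : ℕ} (hi : 0 < i)
    (h0 : hasseDeriv i G ≠ 0) : nr v z (hasseDeriv i G) = 0 := by
  refine hG.least _ h0 ?_
  have := natDegree_hasseDeriv_le G i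
  have := hG.natDegree_pos
  omega

/-- The values `φ_i` of `G^[i]` are constant. -/
theorem KG.val_hasse (hs : Star L v z) (hk : NatU v) {G : Polynomial L} (hG : KG v z G) {i : ℕ}
    (hi : 0 < i) (h0 : hasseDeriv i G ≠ 0) {ψ : L} (hψ : Fa v z (hasseDeriv i G) ψ) :
    (hasseDeriv i G).eval ψ ≠ 0 ∧
      v (algebraMap L Ω ((hasseDeriv i G).eval ψ)) = phi v z (hasseDeriv i G) :=
  val_evalK hs hk h0 (hG.nr_hasse hi h0) hψ

theorem KG.choose_eq_zero (hs : Star L v z) (hk : NatU v) {G : Polynomial L} (hG : KG v z G)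
    {i : ℕ} (hi : 0 < i) (hi' : i < nr v z G) : ((nr v z G).choose i : Ω) = 0 := by
  by_contra hne
  obtain ⟨ψ₀, h₀⟩ := (hs.ev_fa G).ex
  have h1 := (val_hasseL hs hk hG.monic.ne_zero h₀ hne).1
  have h2 : hasseDeriv i G ≠ 0 := by
    intro h
    rw [h] at h1
    exact h1 eval_zero
  have h3 := hs.affine_eq (a := phi v z G) (b := (nr v z G : ℝ) - i)
    (a' := phi v z (hasseDeriv i G)) (b' := 0)
    (((hs.ev_fa G).and (hs.ev_fa (hasseDeriv i G))).mono fun ψ hψ => by
      have e1 := (val_hasseL hs hk hG.monic.ne_zero hψ.1 hne).2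
      have e2 := (hG.val_hasse hs hk hi h2 hψ.2).2
      rw [zero_mul, add_zero]
      exact e1.symm.trans e2)
  have h4 : (nr v z G : ℝ) = i := by linarith [h3.2]
  have h5 : nr v z G = i := by exact_mod_cast h4
  omega

theorem KG.hasse_ne (hs : Star L v z) (hk : NatU v) {G : Polynomial L} (hG : KG v z G) :
    hasseDeriv (nr v z G) G ≠ 0 := by
  obtain ⟨ψ₀, h₀⟩ := (hs.ev_fa G).ex
  have h1 := (val_hasseL hs hk hG.monic.ne_zero h₀ (j := nr v z G) (by simp)).1
  intro h
  rw [h] at h1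
  exact h1 eval_zero

/-- `φ_h = φ(G)`. -/
theorem KG.phi_hasse (hs : Star L v z) (hk : NatU v) {G : Polynomial L} (hG : KG v z G) :
    phi v z (hasseDeriv (nr v z G) G) = phi v z G := by
  obtain ⟨ψ, h₁, h₂⟩ := ((hs.ev_fa G).and (hs.ev_fa (hasseDeriv (nr v z G) G))).ex
  have e1 := (val_hasseL hs hk hG.monic.ne_zero h₁ (j := nr v z G) (by simp)).2
  have e2 := (hG.val_hasse hs hk hG.pos (hG.hasse_ne hs hk) h₂).2
  rw [sub_self, zero_mul, add_zero] at e1
  exact e2.symm.trans e1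

/-- `φ_i > φ_h + (h - i) α(ψ)` for `0 < i < h` and all `ψ`. -/
theorem KG.phi_lt (hs : Star L v z) (hk : NatU v) {G : Polynomial L} (hG : KG v z G)
    {i : ℕ} (hi : 0 < i) (hi' : i < nr v z G) (h0 : hasseDeriv i G ≠ 0) (ψ : L) :
    phi v z G + (nr v z G - i) * al v z ψ < phi v z (hasseDeriv i G) := by
  obtain ⟨ψ', ⟨h₁, h₂⟩, h₃⟩ := hs.ex_gt ((hs.ev_fa G).and (hs.ev_fa (hasseDeriv i G))) ψ
  have e2 := hG.val_hasse hs hk hi h0 h₂
  have e1 := gt_hasseL hs hG.monic.ne_zero h₁ (hG.choose_eq_zero hs hk hi hi') e2.1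
  rw [e2.2] at e1
  have h4 : (i : ℝ) < nr v z G := by exact_mod_cast hi'
  nlinarith

/-- `φ_i > φ_h - (i - h) α(ψ)` for `h < i` and all `ψ` beyond the roots of `G`, `G^[i]`. -/
theorem KG.phi_gt (hs : Star L v z) (hk : NatU v) {G : Polynomial L} (hG : KG v z G)
    {i : ℕ} (hi : nr v z G < i) (h0 : hasseDeriv i G ≠ 0) {ψ : L} (h₁ : Fa v z G ψ)
    (h₂ : Fa v z (hasseDeriv i G) ψ) :
    phi v z G < phi v z (hasseDeriv i G) + (i - nr v z G) * al v z ψ := by
  have e2 := hG.val_hasse hs hk (hG.pos.trans hi) h0 h₂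
  have e1 := gt_hasseL hs hG.monic.ne_zero h₁
    (by rw [Nat.choose_eq_zero_of_lt hi, Nat.cast_zero]) e2.1
  rw [e2.2] at e1
  nlinarith

end OverL

end Pool.Agent.D2
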