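import Pool.Agent.Lib.D2_h17.Kap
import Mathlib.Data.Nat.Choose.Lucas
import Mathlib.Algebra.Polynomial.Div

/-!
# DefectTwo, section 3a: `h` is a power of `p`, `h ≥ 2`, and the `G`-adic expansion
-/

set_option autoImplicit false

open Polynomial

namespace Pool.Agent.D2

open Pool.Agent.H15JM (RVal)
open Pool.Agent.LU1 (VPos val_add_vpos)

universe u w

/-! ## Powers of `p` -/

theorem choose_pow_mul {p : ℕ} (hp : p.Prime) (h' t : ℕ) :
    (p ^ t * h').choose (p ^ t) ≡ h' [MOD p] := by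
  have : Fact p.Prime := ⟨hp⟩
  induction t with
  | zero => simp [Nat.ModEq]
  | succ t ih =>
    have h1 := Choose.choose_modEq_choose_mod_mul_choose_div_nat (n := p ^ (t + 1) * h')
      (k := p ^ (t + 1)) (p := p)
    have h2 : p ^ (t + 1) * h' = p * (p ^ t * h') := by ring
    have h3 : p ^ (t + 1) = p * p ^ t := by ring
    rw [h2, h3, Nat.mul_mod_right, Nat.mul_mod_right, Nat.mul_div_cancel_left _ hp.pos,
      Nat.mul_div_cancel_left _ hp.pos, Nat.choose_self, one_mul] at h1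
    rw [h2, h3]
    exact h1.trans ih

theorem eq_prime_pow {p : ℕ} (hp : p.Prime) {h : ℕ} (h0 : 0 < h)
    (hc : ∀ i, 0 < i → i < h → p ∣ h.choose i) : ∃ t, h = p ^ t := by
  obtain ⟨t, h', hd, he⟩ := Nat.exists_eq_pow_mul_and_not_dvd h0.ne' p hp.ne_one
  refine ⟨t, ?_⟩
  by_contra hne
  have h1 : 1 < h' := by
    rcases Nat.lt_or_ge 1 h' with h1 | h1
    · exact h1
    · exfalso
      interval_cases h'
      · omega
      · exact hne (by rw [he, mul_one])
  have h2 : p ^ t < h := by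
    rw [he]
    exact (Nat.lt_mul_iff_one_lt_right (pow_pos hp.pos t)).mpr h1
  have h3 := hc _ (pow_pos hp.pos t) h2
  rw [he] at h3
  exact hd (((choose_pow_mul hp h' t).dvd_iff dvd_rfl).mp h3)

section OverL

variable {L : Type w} {Ω : Type u} [Field L] [Field Ω] [Algebra L Ω] [SpL L Ω]
  {v : RVal Ω} {z : Ω}

/-- `h` is a power of the characteristic. -/
theorem KG.prime_pow (hs : Star L v z) (hk : NatU v) {G : Polynomial L} (hG : KG v z G)
    {p : ℕ} (hp : p.Prime) [CharP Ω p] : ∃ t, nr v z G = p ^ t :=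
  eq_prime_pow hp hG.pos fun _ hi hi' =>
    (CharP.cast_eq_zero_iff Ω p _).mp (hG.choose_eq_zero hs hk hi hi')

omit [SpL L Ω] in
theorem Fa.mono {P : Polynomial L} {ψ ψ' : L} (h : Fa v z P ψ) (hle : al v z ψ ≤ al v z ψ') :
    Fa v z P ψ' := fun ζ hζ hn => (h ζ hζ hn).trans_le hle

/-- The Newton step. -/
theorem KG.newton (hs : Star L v z) (hk : NatU v) {G : Polynomial L} (hG : KG v z G)
    (h1 : nr v z G = 1) : ∃ ψ₀ : L, ∀ ψ : L, al v z ψ₀ < al v z ψ →
      ∃ ψ' : L, al v z ψ + (al v z ψ - al v z ψ₀) ≤ al v z ψ' := by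
  classical
  obtain ⟨ζ, hζ, hζ0⟩ := (nr_pos_iff hG.monic.ne_zero).mp hG.pos
  obtain ⟨ψ₀, hG0, hi0⟩ := ((hs.ev_fa G).and (Ev.all (Finset.range (G.natDegree + 1))
    fun j _ => hs.ev_fa (hasseDeriv j G))).ex
  refine ⟨ψ₀, fun ψ hlt => ?_⟩
  have hG1 := hG0.mono hlt.le
  have hne1 : hasseDeriv 1 G ≠ 0 := by
    have := hG.hasse_ne hs hk
    rwa [h1] at this
  have hd1 : 1 < G.natDegree + 1 := by
    have := hG.natDegree_pos
    omega
  have hφ1 : phi v z (hasseDeriv 1 G) = phi v z G := by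
    have := hG.phi_hasse hs hk
    rwa [h1] at this
  obtain ⟨hD, hvD⟩ := hG.val_hasse hs hk one_pos hne1
    ((hi0 1 (Finset.mem_range.mpr hd1)).mono hlt.le)
  rw [hφ1] at hvD
  set D : L := (hasseDeriv 1 G).eval ψ with hDdef
  -- the new approximation
  set ψ' : L := ψ - G.eval ψ / D with hψ'
  refine ⟨ψ', ?_⟩
  have hDΩ : algebraMap L Ω D ≠ 0 := map_ne_zero' hD
  obtain ⟨hne, hsub⟩ := hζ.sub hs ψ'
  obtain ⟨hneψ, hsubψ⟩ := hζ.sub hs ψ
  -- Taylor expansion at `ψ`
  have hT : ∑ j ∈ Finset.range (G.natDegree + 1),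
      algebraMap L Ω ((hasseDeriv j G).eval ψ) * (ζ - algebraMap L Ω ψ) ^ j = 0 := by
    have h2 : (taylor (algebraMap L Ω ψ) (G.map (algebraMap L Ω))).eval
        (ζ - algebraMap L Ω ψ) = 0 := by
      rw [taylor_eval_sub, eval_map_algebraMap]
      exact hζ0
    rw [eval_eq_sum_range, natDegree_taylor, natDegree_map] at h2
    rw [← h2]
    refine Finset.sum_congr rfl fun j _ => ?_
    rw [algebraMap_hasse, taylor_coeff]
  have hT2 : algebraMap L Ω D * (algebraMap L Ω ψ' - ζ)
      = ∑ j ∈ (Finset.range (G.natDegree + 1)).filter (2 ≤ ·),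
        algebraMap L Ω ((hasseDeriv j G).eval ψ) * (ζ - algebraMap L Ω ψ) ^ j := by
    have h3 : (Finset.range (G.natDegree + 1)).filter (¬ 2 ≤ ·) = Finset.range 2 := by
      ext j
      simp only [Finset.mem_filter, Finset.mem_range]
      omega
    rw [← Finset.sum_filter_add_sum_filter_not _ (2 ≤ ·), h3, Finset.sum_range_succ,
      Finset.sum_range_one] at hT
    simp only [hasseDeriv_zero', pow_zero, mul_one, pow_one] at hT
    have h4 : algebraMap L Ω ψ' = algebraMap L Ω ψ
        - algebraMap L Ω (G.eval ψ) / algebraMap L Ω D := by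
      rw [hψ', map_sub, map_div₀]
    rw [h4]
    field_simp
    rw [← hDdef] at hT
    linear_combination (-1 : Ω) * hT
  have hge : v.Ge (phi v z G + (al v z ψ + (al v z ψ - al v z ψ₀)))
      (algebraMap L Ω D * (algebraMap L Ω ψ' - ζ)) := by
    rw [hT2]
    refine RVal.Ge.sum _ _ fun j hj h0 => ?_
    obtain ⟨hj1, hj2⟩ := Finset.mem_filter.mp hj
    have ha : algebraMap L Ω ((hasseDeriv j G).eval ψ) ≠ 0 := left_ne_zero_of_mul h0
    have hb : (ζ - algebraMap L Ω ψ) ^ j ≠ 0 := right_ne_zero_of_mul h0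
    have hz' : ζ - algebraMap L Ω ψ ≠ 0 := by
      intro h
      exact hneψ (by linear_combination (-1 : Ω) * h)
    have hvz : v (ζ - algebraMap L Ω ψ) = al v z ψ := by
      rw [← hsubψ, ← v.map_neg _ hneψ]
      congr 1
      ring
    have hne' : hasseDeriv j G ≠ 0 := by
      intro h
      rw [h, eval_zero, map_zero] at ha
      exact ha rfl
    have e1 := (hG.val_hasse hs hk (by omega) hne' ((hi0 j hj1).mono hlt.le)).2
    have e2 := hG.phi_gt hs hk (by omega) hne' hG0 (hi0 j hj1)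
    rw [v.map_mul ha hb, v.map_pow hz', hvz, e1]
    rw [h1] at e2
    have hj3 : (2 : ℝ) ≤ j := by exact_mod_cast hj2
    push_cast at e2
    nlinarith [mul_nonneg (sub_nonneg.mpr hj3) (sub_nonneg.mpr hlt.le)]
  have hfin := hge (mul_ne_zero hDΩ hne)
  rw [v.map_mul hDΩ hne, hvD, hsub] at hfin
  linarith

/-- If the distances are bounded then `h ≥ 2`. -/
theorem KG.two_le (hs : Star L v z) (hk : NatU v) {G : Polynomial L} (hG : KG v z G)
    {B : ℝ} (hB : ∀ ψ : L, al v z ψ ≤ B) : 2 ≤ nr v z G := by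
  by_contra hlt
  have h1 : nr v z G = 1 := by
    have := hG.pos
    omega
  obtain ⟨ψ₀, h⟩ := hG.newton hs hk h1
  obtain ⟨ψ₁, h₁⟩ := hs.nomax ψ₀
  set δ := al v z ψ₁ - al v z ψ₀ with hδ
  have hδ0 : 0 < δ := sub_pos.mpr h₁
  have key : ∀ n : ℕ, ∃ ψ : L, al v z ψ₁ + n * δ ≤ al v z ψ := by
    intro n
    induction n with
    | zero => exact ⟨ψ₁, by simp⟩
    | succ n ih =>
      obtain ⟨ψ, hψ⟩ := ih
      have hnn : (0 : ℝ) ≤ n * δ := by positivity
      obtain ⟨ψ', hψ'⟩ := h ψ (by linarith)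
      refine ⟨ψ', ?_⟩
      push_cast
      linarith
  obtain ⟨n, hn⟩ := exists_nat_gt ((B - al v z ψ₁) / δ)
  obtain ⟨ψ, hψ⟩ := key n
  rw [div_lt_iff₀ hδ0] at hn
  have := hB ψ
  linarith

/-! ## The `G`-adic expansion -/

omit [SpL L Ω] in
theorem Star.argmin (hs : Star L v z) {S : Finset ℕ} (hne : S.Nonempty) {a b : ℕ → ℝ}
    (hb : ∀ s ∈ S, ∀ s' ∈ S, s ≠ s' → b s ≠ b s') :
    ∃ s₀ ∈ S, ∀ s ∈ S, s ≠ s₀ → Ev v z fun ψ : L =>
      a s₀ + b s₀ * al v z ψ < a s + b s * al v z ψ := by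
  classical
  induction hne using Finset.Nonempty.cons_induction with
  | singleton t =>
    exact ⟨t, Finset.mem_singleton_self t, fun s hs' hne => absurd (Finset.mem_singleton.mp hs')
      hne⟩
  | cons t S ht hS ih =>
    obtain ⟨s₀, hs₀, hmin⟩ := ih fun s h s' h' =>
      hb s (Finset.mem_cons_of_mem h) s' (Finset.mem_cons_of_mem h')
    have hts : t ≠ s₀ := fun h => ht (h ▸ hs₀)
    rcases hs.sign (a t - a s₀) (b t - b s₀)
      (sub_ne_zero.mpr (hb t (Finset.mem_cons_self t S) s₀ (Finset.mem_cons_of_mem hs₀) hts))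
      with h | h
    · refine ⟨s₀, Finset.mem_cons_of_mem hs₀, fun s hs' hne => ?_⟩
      rcases Finset.mem_cons.mp hs' with rfl | hs'
      · exact h.mono fun ψ hψ => by linarith
      · exact hmin s hs' hne
    · refine ⟨t, Finset.mem_cons_self t S, fun s hs' hne => ?_⟩
      rcases Finset.mem_cons.mp hs' with rfl | hs'
      · exact absurd rfl hne
      · by_cases hss : s = s₀
        · subst hss
          exact h.mono fun ψ hψ => by linarith
        · exact (h.and (hmin s hs' hss)).mono fun ψ hψ => by linarith [hψ.1, hψ.2]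

/-- A sum with a strictly least term. -/
theorem sum_min {Ω : Type u} [Field Ω] {v : RVal Ω} {ι : Type*} [DecidableEq ι] {S : Finset ι}
    {x : ι → Ω} {i₀ : ι} (hi : i₀ ∈ S) (h0 : x i₀ ≠ 0)
    (h : ∀ i ∈ S, i ≠ i₀ → x i ≠ 0 → v (x i₀) < v (x i)) :
    ∑ i ∈ S, x i ≠ 0 ∧ v (∑ i ∈ S, x i) = v (x i₀) := by
  have h1 : VPos v (∑ i ∈ S.erase i₀, x i / x i₀) := by
    refine VPos.sum _ _ fun i hi' hne => ?_
    have h2 : x i ≠ 0 := fun h => hne (by rw [h, zero_div])
    rw [v.map_div h2 h0]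
    have := h i (Finset.mem_of_mem_erase hi') (Finset.ne_of_mem_erase hi') h2
    linarith
  obtain ⟨h2, h3⟩ := val_add_vpos one_ne_zero v.map_one h1
  have h4 : ∑ i ∈ S, x i = x i₀ * (1 + ∑ i ∈ S.erase i₀, x i / x i₀) := by
    rw [← Finset.add_sum_erase S x hi, mul_add, mul_one, Finset.mul_sum]
    congr 1
    refine Finset.sum_congr rfl fun i _ => ?_
    field_simp
  rw [h4]
  exact ⟨mul_ne_zero h0 h2, by rw [v.map_mul h0 h2, h3, add_zero]⟩

omit [Field Ω] [Algebra L Ω] [SpL L Ω] in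
/-- The existence of the expansion. -/
theorem exists_expansion {G : Polynomial L} (hG : G.Monic) (hd : 0 < G.natDegree)
    (A : Polynomial L) : ∃ (n : ℕ) (f : ℕ → Polynomial L),
      (∀ s, (f s).natDegree < G.natDegree) ∧ (∀ s, n ≤ s → f s = 0) ∧
      A = ∑ s ∈ Finset.range n, f s * G ^ s := by
  have hG1 : G ≠ 1 := by
    rintro rfl
    simp at hd
  induction hN : A.natDegree using Nat.strong_induction_on generalizing A with
  | _ N ih =>
    by_cases hlt : N < G.natDegree
    · refine ⟨1, fun s => if s = 0 then A else 0, fun s => ?_, fun s hs => ?_, by simp⟩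
      · by_cases h : s = 0
        · simp only [h, if_true]
          omega
        · simp only [h, if_false, natDegree_zero]
          exact hd
      · simp only
        rw [if_neg (by omega)]
    · obtain ⟨n, f, hf, hf0, hsum⟩ := ih (A /ₘ G).natDegree
        (by rw [natDegree_divByMonic A hG]; omega) (A /ₘ G) rfl
      refine ⟨n + 1, fun s => if s = 0 then A %ₘ G else f (s - 1), fun s => ?_, fun s hs => ?_,
        ?_⟩
      · by_cases h : s = 0
        · simp only [h, if_true]
          exact natDegree_modByMonic_lt A hG hG1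
        · simp only [h, if_false]
          exact hf _
      · simp only
        rw [if_neg (by omega)]
        exact hf0 _ (by omega)
      · rw [Finset.sum_range_succ']
        simp only [Nat.add_eq_zero_iff, one_ne_zero, and_false, if_false, Nat.add_sub_cancel,
          if_true, pow_zero, mul_one]
        have h1 : ∑ s ∈ Finset.range n, f s * G ^ (s + 1)
            = G * ∑ s ∈ Finset.range n, f s * G ^ s := by
          rw [Finset.mul_sum]
          refine Finset.sum_congr rfl fun s _ => ?_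
          ring
        rw [h1, ← hsum, add_comm]
        exact (modByMonic_add_div A G).symm

/-- **The `G`-adic expansion.** -/
theorem KG.expansion (hs : Star L v z) (hk : NatU v) {G : Polynomial L} (hG : KG v z G)
    {A : Polynomial L} (hA : A ≠ 0) {n : ℕ} {f : ℕ → Polynomial L}
    (hf : ∀ s, (f s).natDegree < G.natDegree)
    (hsum : A = ∑ s ∈ Finset.range n, f s * G ^ s) :
    ∃ s₀ < n, f s₀ ≠ 0 ∧ nr v z A = s₀ * nr v z G ∧
      phi v z A = phi v z (f s₀) + s₀ * phi v z G ∧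
      ∀ s < n, s ≠ s₀ → f s ≠ 0 → Ev v z fun ψ : L =>
        phi v z A + nr v z A * al v z ψ
          < phi v z (f s) + s * (phi v z G + nr v z G * al v z ψ) := by
  classical
  set S : Finset ℕ := (Finset.range n).filter fun s => f s ≠ 0 with hSdef
  have hne : S.Nonempty := by
    by_contra h
    rw [Finset.not_nonempty_iff_eq_empty] at h
    refine hA ?_
    rw [hsum]
    refine Finset.sum_eq_zero fun s hs' => ?_
    have : f s = 0 := by
      by_contra h0
      have h1 : s ∈ S := Finset.mem_filter.mpr ⟨hs', h0⟩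
      rw [h] at h1
      exact absurd h1 (Finset.notMem_empty s)
    rw [this, zero_mul]
  have hh : (0 : ℝ) < nr v z G := by exact_mod_cast hG.pos
  obtain ⟨s₀, hs₀, hmin⟩ := hs.argmin hne (a := fun s => phi v z (f s) + s * phi v z G)
    (b := fun s => s * nr v z G) (fun s _ s' _ hne h => by
      have : (s : ℝ) = s' := mul_right_cancel₀ hh.ne' h
      exact hne (by exact_mod_cast this))
  obtain ⟨hs₀n, hs₀f⟩ := Finset.mem_filter.mp hs₀
  -- the value of `A ψ`
  have hterm : ∀ s ∈ S, Ev v z fun ψ : L => (f s * G ^ s).eval ψ ≠ 0 ∧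
      v (algebraMap L Ω ((f s * G ^ s).eval ψ))
        = phi v z (f s) + s * phi v z G + s * nr v z G * al v z ψ := by
    intro s hs'
    have hfs := (Finset.mem_filter.mp hs').2
    refine ((hs.ev_fa (f s)).and (hs.ev_fa G)).mono fun ψ hψ => ?_
    obtain ⟨e1, e2⟩ := val_evalK hs hk hfs (hG.least _ hfs (hf s)) hψ.1
    obtain ⟨e3, e4⟩ := val_evalL hs hk hG.monic.ne_zero hψ.2
    rw [eval_mul, eval_pow, map_mul, map_pow]
    have e5 := map_ne_zero' (Ω := Ω) e1
    have e6 := map_ne_zero' (Ω := Ω) e3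
    refine ⟨mul_ne_zero e1 (pow_ne_zero _ e3), ?_⟩
    rw [v.map_mul e5 (pow_ne_zero _ e6), v.map_pow e6, e2, e4]
    ring
  have hall := (Ev.all S hterm).and ((Ev.all (S.erase s₀) fun s hs' =>
    hmin s (Finset.mem_of_mem_erase hs') (Finset.ne_of_mem_erase hs')).and (hs.ev_fa A))
  have hsumS : A = ∑ s ∈ S, f s * G ^ s := by
    rw [hsum, hSdef, Finset.sum_filter]
    refine Finset.sum_congr rfl fun s _ => ?_
    by_cases h : f s = 0
    · simp [h]
    · simp [h]
  have heq := hs.affine_eq (a := phi v z A) (b := nr v z A)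
    (a' := phi v z (f s₀) + s₀ * phi v z G) (b' := s₀ * nr v z G)
    (hall.mono fun ψ ⟨h1, h2, h3⟩ => by
      have e1 := (val_evalL hs hk hA h3).2
      have e2 : algebraMap L Ω (A.eval ψ) = ∑ s ∈ S, algebraMap L Ω ((f s * G ^ s).eval ψ) := by
        conv_lhs => rw [hsumS]
        rw [eval_finsetSum, map_sum]
      have e3 := sum_min (v := v) (x := fun s => algebraMap L Ω ((f s * G ^ s).eval ψ)) hs₀
        (map_ne_zero' (h1 s₀ hs₀).1) fun s hs' hne _ => by
          rw [(h1 s hs').2, (h1 s₀ hs₀).2]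
          exact h2 s (Finset.mem_erase.mpr ⟨hne, hs'⟩)
      rw [← e1, e2, e3.2, (h1 s₀ hs₀).2])
  refine ⟨s₀, Finset.mem_range.mp hs₀n, hs₀f, by exact_mod_cast heq.2, heq.1,
    fun s hsn hne' hf0 => ?_⟩
  rw [heq.1, heq.2]
  exact (hmin s (Finset.mem_filter.mpr ⟨Finset.mem_range.mpr hsn, hf0⟩) hne').mono
    fun ψ hψ => by linarith

end OverL

end Pool.Agent.D2
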