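import Pool.Agent.Lib.D2_h17.Kap2

/-!
# DefectTwo, section 1: roots of positive value

`A` is a polynomial with coefficients of value `≥ 0` whose first coefficient of value `0` is
the one of degree `m`.
-/

set_option autoImplicit false

open Polynomial

namespace Pool.Agent.D2

open Pool.Agent.H15JM (RVal)
open Pool.Agent.LU1 (VPos val_add_vpos)

universe u w

section Roots

variable {Ω : Type u} [Field Ω] {v : RVal Ω}

open Classical in
/-- The number of elements of positive value. -/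
noncomputable def cP (v : RVal Ω) (R : Multiset Ω) : ℕ := (R.filter fun ζ => VPos v ζ).card

open Classical in
/-- The sum of the values of the other elements. -/
noncomputable def fP (v : RVal Ω) (R : Multiset Ω) : ℝ :=
  ((R.filter fun ζ => ¬ VPos v ζ).map fun ζ => v ζ).sum

theorem cP_cons_pos {ζ : Ω} (h : VPos v ζ) (R : Multiset Ω) : cP v (ζ ::ₘ R) = cP v R + 1 := by
  classical
  unfold cP
  rw [Multiset.filter_cons_of_pos (p := fun ζ => VPos v ζ) _ h, Multiset.card_cons]

theorem cP_cons_neg {ζ : Ω} (h : ¬ VPos v ζ) (R : Multiset Ω) : cP v (ζ ::ₘ R) = cP v R := by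
  classical
  unfold cP
  rw [Multiset.filter_cons_of_neg (p := fun ζ => VPos v ζ) _ h]

theorem fP_cons_pos {ζ : Ω} (h : VPos v ζ) (R : Multiset Ω) : fP v (ζ ::ₘ R) = fP v R := by
  classical
  unfold fP
  rw [Multiset.filter_cons_of_neg (p := fun ζ => ¬ VPos v ζ) _ (not_not.mpr h)]

theorem fP_cons_neg {ζ : Ω} (h : ¬ VPos v ζ) (R : Multiset Ω) :
    fP v (ζ ::ₘ R) = v ζ + fP v R := by
  classical
  unfold fP
  rw [Multiset.filter_cons_of_pos (p := fun ζ => ¬ VPos v ζ) _ h, Multiset.map_cons,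
    Multiset.sum_cons]

theorem far_ne {ζ : Ω} (h : ¬ VPos v ζ) : ζ ≠ 0 ∧ v ζ ≤ 0 := by
  unfold VPos at h
  push Not at h
  exact h

/-- `E` has coefficients of value `≥ 0` and `≥ (n - i) s`, and its coefficient of degree `n` is a
one-unit. -/
structure Gr (v : RVal Ω) (s : ℝ) (n : ℕ) (E : Polynomial Ω) : Prop where
  int : IntP v E
  gr : ∀ i : ℕ, v.Ge ((n - i) * s) (E.coeff i)
  top : VPos v (E.coeff n - 1)

theorem Gr.one {s : ℝ} (hs : 0 ≤ s) : Gr v s 0 (1 : Polynomial Ω) := by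
  refine ⟨IntP.one, fun i => ?_, ?_⟩
  · refine (IntP.one i).mono ?_
    push_cast
    nlinarith [mul_nonneg (Nat.cast_nonneg i : (0 : ℝ) ≤ i) hs]
  · rw [coeff_one_zero, sub_self]
    exact LU1.VPos.zero

theorem coeff_add_mul_X_zero (E : Polynomial Ω) (b : Ω) :
    ((X + C b) * E).coeff 0 = b * E.coeff 0 := by
  rw [add_mul, coeff_add, coeff_C_mul, mul_coeff_zero, coeff_X_zero, zero_mul, zero_add]

theorem coeff_add_mul_X_succ (E : Polynomial Ω) (b : Ω) (i : ℕ) :
    ((X + C b) * E).coeff (i + 1) = E.coeff i + b * E.coeff (i + 1) := by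
  rw [add_mul, coeff_add, coeff_C_mul, coeff_X_mul]

theorem Gr.near {s : ℝ} (hs : 0 < s) {n : ℕ} {E : Polynomial Ω} (h : Gr v s n E) {b : Ω}
    (hb : v.Ge s b) : Gr v s (n + 1) ((X + C b) * E) := by
  have hb0 : v.Ge 0 b := hb.mono hs.le
  refine ⟨(IntP.var.add (IntP.cst hb0)).mul h.int, fun i => ?_, ?_⟩
  · rcases i with _ | i
    · rw [coeff_add_mul_X_zero]
      refine (hb.mul (h.gr 0)).mono ?_
      push_cast
      linarith
    · rw [coeff_add_mul_X_succ]
      refine RVal.Ge.add ((h.gr i).mono ?_) ((hb.mul (h.gr (i + 1))).mono ?_)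
      · push_cast
        linarith
      · push_cast
        linarith
  · rw [coeff_add_mul_X_succ]
    have h1 : VPos v (b * E.coeff (n + 1)) :=
      LU1.VPos.mul (fun h0 => hs.trans_le (hb h0)) (h.int _)
    have h2 := h.top.add h1
    have h3 : E.coeff n + b * E.coeff (n + 1) - 1
        = (E.coeff n - 1) + b * E.coeff (n + 1) := by ring
    rw [h3]
    exact h2

theorem coeff_one_add_zero (E : Polynomial Ω) (b : Ω) :
    ((1 + C b * X) * E).coeff 0 = E.coeff 0 := by
  rw [add_mul, one_mul, coeff_add, mul_assoc, coeff_C_mul, mul_coeff_zero, coeff_X_zero, zero_mul,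
    mul_zero, add_zero]

theorem coeff_one_add_succ (E : Polynomial Ω) (b : Ω) (i : ℕ) :
    ((1 + C b * X) * E).coeff (i + 1) = E.coeff (i + 1) + b * E.coeff i := by
  rw [add_mul, one_mul, coeff_add, mul_assoc, coeff_C_mul, coeff_X_mul]

theorem Gr.far {s : ℝ} (hs : 0 < s) {n : ℕ} {E : Polynomial Ω} (h : Gr v s n E) {b : Ω}
    (hb : v.Ge 0 b) : Gr v s n ((1 + C b * X) * E) := by
  refine ⟨(IntP.one.add ((IntP.cst hb).mul IntP.var)).mul h.int, fun i => ?_, ?_⟩
  · rcases i with _ | i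
    · rw [coeff_one_add_zero]
      exact h.gr 0
    · rw [coeff_one_add_succ]
      refine RVal.Ge.add (h.gr (i + 1)) ((hb.mul (h.gr i)).mono ?_)
      push_cast
      linarith
  · rcases n with _ | n
    · rw [coeff_one_add_zero]
      exact h.top
    · rw [coeff_one_add_succ]
      have h1 : VPos v (E.coeff n) := fun h0 => by
        have := h.gr n h0
        push_cast at this
        linarith
      have h2 := h.top.add (LU1.VPos.mul' hb h1)
      have h3 : E.coeff (n + 1) + b * E.coeff n - 1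
          = (E.coeff (n + 1) - 1) + b * E.coeff n := by ring
      rw [h3]
      exact h2

/-- The Taylor expansion at an element `w` near to all roots of positive value. -/
theorem grade_aux {s : ℝ} (hs : 0 < s) {w : Ω} (hw : VPos v w) (R : Multiset Ω)
    (hR : ∀ ζ ∈ R, VPos v ζ → v.Ge s (w - ζ)) :
    ∃ c : Ω, c ≠ 0 ∧ v c = fP v R ∧ ∃ E : Polynomial Ω, Gr v s (cP v R) E ∧
      (R.map fun ζ => X + C (w - ζ)).prod = C c * E := by
  classical
  induction R using Multiset.induction_on with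
  | empty =>
    exact ⟨1, one_ne_zero, by simp [fP, v.map_one], 1, by simpa [cP] using Gr.one hs.le, by simp⟩
  | cons ζ R ih =>
    obtain ⟨c, hc, hvc, E, hE, hP⟩ := ih fun ζ' h' => hR ζ' (Multiset.mem_cons_of_mem h')
    rw [Multiset.map_cons, Multiset.prod_cons, hP]
    by_cases hn : VPos v ζ
    · refine ⟨c, hc, by rw [hvc, fP_cons_pos hn], (X + C (w - ζ)) * E, ?_, by ring⟩
      rw [cP_cons_pos hn]
      exact hE.near hs (hR ζ (Multiset.mem_cons_self ζ R) hn)
    · obtain ⟨h0, h1⟩ := far_ne hn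
      have h2 : w - ζ ≠ 0 ∧ v (w - ζ) = v ζ := by
        by_cases hw0 : w = 0
        · rw [hw0, zero_sub]
          exact ⟨neg_ne_zero.mpr h0, v.map_neg _ h0⟩
        · have h3 := v.add_of_lt (neg_ne_zero.mpr h0) hw0
            (by rw [v.map_neg _ h0]; exact h1.trans_lt (hw hw0))
          have h4 : w - ζ = -ζ + w := by ring
          rw [h4]
          exact ⟨h3.1, h3.2.trans (v.map_neg _ h0)⟩
      refine ⟨(w - ζ) * c, mul_ne_zero h2.1 hc, ?_, (1 + C (w - ζ)⁻¹ * X) * E, ?_, ?_⟩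
      · rw [v.map_mul h2.1 hc, h2.2, hvc, fP_cons_neg hn]
      · rw [cP_cons_neg hn]
        refine hE.far hs fun h3 => ?_
        rw [v.map_inv h2.1, h2.2]
        linarith
      · have h5 : (C (w - ζ) : Polynomial Ω) * C (w - ζ)⁻¹ = 1 := by
          rw [← C_mul, mul_inv_cancel₀ h2.1, C_1]
        rw [C_mul]
        linear_combination (-(X * C c * E)) * h5

theorem grade {A : Polynomial Ω} (hA : A ≠ 0) (hsp : A.Splits) {s : ℝ} (hs : 0 < s) {w : Ω} (hw : VPos v w)
    (hR : ∀ ζ ∈ A.roots, VPos v ζ → v.Ge s (w - ζ)) :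
    ∃ c : Ω, c ≠ 0 ∧ v c = v A.leadingCoeff + fP v A.roots ∧ ∃ E : Polynomial Ω,
      Gr v s (cP v A.roots) E ∧ ∀ j, (hasseDeriv j A).eval w = c * E.coeff j := by
  obtain ⟨c, hc, hvc, E, hE, hP⟩ := grade_aux hs hw A.roots hR
  have hl : A.leadingCoeff ≠ 0 := leadingCoeff_ne_zero.mpr hA
  refine ⟨A.leadingCoeff * c, mul_ne_zero hl hc, by rw [v.map_mul hl hc, hvc], E, hE,
    fun j => ?_⟩
  have h1 : taylor w A = C A.leadingCoeff * (A.roots.map fun ζ => X + C (w - ζ)).prod := by
    rw [taylor_apply]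
    conv_lhs => rw [hsp.eq_prod_roots]
    rw [mul_comp, C_comp, multiset_prod_comp, Multiset.map_map]
    congr 2
    refine Multiset.map_congr rfl fun ζ _ => ?_
    simp only [Function.comp, sub_comp, X_comp, C_comp, map_sub]
    ring
  rw [← taylor_coeff, h1, hP, ← mul_assoc, ← C_mul, coeff_C_mul]

/-- All roots of positive value have distance at least `s > 0` from `0`. -/
theorem exists_gap (R : Multiset Ω) : ∃ s : ℝ, 0 < s ∧ ∀ ζ ∈ R, VPos v ζ → v.Ge s ζ := by
  classical
  induction R using Multiset.induction_on with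
  | empty => exact ⟨1, one_pos, fun ζ h => absurd h (Multiset.notMem_zero ζ)⟩
  | cons ζ R ih =>
    obtain ⟨s, hs, h⟩ := ih
    by_cases hn : ζ ≠ 0 ∧ VPos v ζ
    · refine ⟨min s (v ζ), lt_min hs (hn.2 hn.1), fun ζ' h' hp => ?_⟩
      rcases Multiset.mem_cons.mp h' with rfl | h'
      · exact fun _ => min_le_right _ _
      · exact (h ζ' h' hp).mono (min_le_left _ _)
    · refine ⟨s, hs, fun ζ' h' hp => ?_⟩
      rcases Multiset.mem_cons.mp h' with rfl | h'
      · intro h0
        exact absurd ⟨h0, hp⟩ hn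
      · exact h ζ' h' hp

/-- `A` has coefficients of value `≥ 0` and the first one of value `0` has degree `m`. -/
structure Ord0 (v : RVal Ω) (A : Polynomial Ω) (m : ℕ) : Prop where
  int : IntP v A
  ne : A.coeff m ≠ 0
  val : v (A.coeff m) = 0
  lt : ∀ j < m, VPos v (A.coeff j)

theorem Ord0.ne_zero {A : Polynomial Ω} {m : ℕ} (h : Ord0 v A m) : A ≠ 0 := by
  rintro rfl
  exact h.ne (coeff_zero m)

/-- The number of roots of positive value is `m`. -/
theorem Ord0.count {A : Polynomial Ω} {m : ℕ} (h : Ord0 v A m) (hsp : A.Splits) :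
    cP v A.roots = m ∧ v A.leadingCoeff + fP v A.roots = 0 := by
  obtain ⟨s, hs, hgap⟩ := exists_gap (v := v) A.roots
  obtain ⟨c, hc, hvc, E, hE, hP⟩ := grade h.ne_zero hsp hs (w := 0) LU1.VPos.zero
    fun ζ hζ hp => by
      rw [zero_sub]
      exact (hgap ζ hζ hp).neg
  have hco : ∀ j, A.coeff j = c * E.coeff j := by
    intro j
    rw [← hP j, ← taylor_coeff, taylor_zero]
  set n := cP v A.roots with hn
  have hEn : E.coeff n ≠ 0 ∧ v (E.coeff n) = 0 := by
    have h1 := val_add_vpos one_ne_zero v.map_one hE.top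
    rwa [add_sub_cancel] at h1
  have hcn : v (A.coeff n) = v c := by
    rw [hco, v.map_mul hc hEn.1, hEn.2, add_zero]
  have hAn : A.coeff n ≠ 0 := by
    rw [hco]
    exact mul_ne_zero hc hEn.1
  have h1 : 0 ≤ v c := by
    rw [← hcn]
    exact h.int n hAn
  have hEm : E.coeff m ≠ 0 := by
    have := h.ne
    rw [hco] at this
    exact right_ne_zero_of_mul this
  have h2 : v c + v (E.coeff m) = 0 := by
    have := h.val
    rwa [hco, v.map_mul hc hEm] at this
  have h3 := hE.int m hEm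
  have h4 : v c = 0 := by linarith
  refine ⟨?_, by rw [← hvc, h4]⟩
  rcases lt_trichotomy n m with h5 | h5 | h5
  · exfalso
    have := h.lt n h5 hAn
    rw [hcn, h4] at this
    exact lt_irrefl _ this
  · exact h5
  · exfalso
    have h6 := hE.gr m hEm
    have h7 : (0 : ℝ) < n - m := by
      have : (m : ℝ) < n := by exact_mod_cast h5
      linarith
    have h8 := mul_pos h7 hs
    linarith

/-- The values of the Taylor coefficients at an element near to all roots of positive value. -/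
theorem Ord0.grade {A : Polynomial Ω} {m : ℕ} (h : Ord0 v A m) (hsp : A.Splits) {s : ℝ} (hs : 0 < s) {w : Ω}
    (hw : VPos v w) (hR : ∀ ζ ∈ A.roots, VPos v ζ → v.Ge s (w - ζ)) :
    (∀ j, v.Ge 0 ((hasseDeriv j A).eval w)) ∧
    (∀ j : ℕ, v.Ge ((m - j) * s) ((hasseDeriv j A).eval w)) ∧
    (hasseDeriv m A).eval w ≠ 0 ∧ v ((hasseDeriv m A).eval w) = 0 := by
  obtain ⟨c, hc, hvc, E, hE, hP⟩ := D2.grade h.ne_zero hsp hs hw hR
  obtain ⟨h1, h2⟩ := h.count hsp
  rw [h2] at hvc
  rw [h1] at hE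
  have hge : ∀ {r : ℝ} {x : Ω}, v.Ge r x → v.Ge r (c * x) := by
    intro r x hx
    have := (v.ge_self c).mul hx
    rwa [hvc, zero_add] at this
  have hEn : E.coeff m ≠ 0 ∧ v (E.coeff m) = 0 := by
    have h1 := val_add_vpos one_ne_zero v.map_one hE.top
    rwa [add_sub_cancel] at h1
  refine ⟨fun j => ?_, fun j => ?_, ?_, ?_⟩
  · rw [hP]
    exact hge (hE.int j)
  · rw [hP]
    exact hge (hE.gr j)
  · rw [hP]
    exact mul_ne_zero hc hEn.1
  · rw [hP, v.map_mul hc hEn.1, hvc, hEn.2, add_zero]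

end Roots

/-! ## Case (*) -/

section StarCase

variable {L : Type w} {Ω : Type u} [Field L] [Field Ω] [Algebra L Ω] {v : RVal Ω} {z : Ω}

/-- `z` has no best approximation when the values `α(ψ)` are values of `L` and the residue field
comes from `L`. -/
theorem Star.of_residue (hne : ∀ ψ : L, z - algebraMap L Ω ψ ≠ 0)
    (hres : ∀ x : Ω, x ≠ 0 → v x = 0 → ∃ c : L, VPos v (x - algebraMap L Ω c))
    (hval : ∀ ψ : L, ∃ g : L, g ≠ 0 ∧ al v z ψ = v (algebraMap L Ω g)) : Star L v z := by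
  refine ⟨hne, fun ψ => ?_⟩
  obtain ⟨g, hg, hvg⟩ := hval ψ
  have hg' := map_ne_zero' (Ω := Ω) hg
  obtain ⟨c, hc⟩ := hres ((z - algebraMap L Ω ψ) / algebraMap L Ω g) (div_ne_zero (hne ψ) hg')
    (by rw [v.map_div (hne ψ) hg', ← hvg]; exact sub_self _)
  refine ⟨ψ + c * g, ?_⟩
  have h1 : z - algebraMap L Ω (ψ + c * g)
      = algebraMap L Ω g * ((z - algebraMap L Ω ψ) / algebraMap L Ω g - algebraMap L Ω c) := by
    rw [map_add, map_mul]
    field_simp
    ring
  have h2 : (z - algebraMap L Ω ψ) / algebraMap L Ω g - algebraMap L Ω c ≠ 0 := by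
    intro h0
    rw [h0, mul_zero] at h1
    exact hne _ h1
  have h3 := hc h2
  have h4 : al v z (ψ + c * g) = v (algebraMap L Ω g)
      + v ((z - algebraMap L Ω ψ) / algebraMap L Ω g - algebraMap L Ω c) := by
    unfold al
    rw [h1, v.map_mul hg' h2]
  rw [h4, hvg]
  linarith

/-- In case (*) the roots of positive value are the near roots. -/
theorem Ord0.star (hs : Star L v z) (hz : VPos v z) {A : Polynomial Ω} {m : ℕ}
    (h : Ord0 v A m) (hsp : A.Splits) (hstar : ∀ ζ ∈ A.roots, VPos v ζ → Near L v z ζ) :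
    nN L v z A.roots = m ∧ ph L v z A = 0 ∧
      ∀ ψ : L, 0 < al v z ψ → Beyond v z A.roots ψ := by
  classical
  have hz0 : z ≠ 0 := by
    have := hs.ne 0
    rwa [map_zero, sub_zero] at this
  have hal0 : al v z (0 : L) = v z := by
    unfold al
    rw [map_zero, sub_zero]
  have hfar : ∀ ζ : Ω, ¬ VPos v ζ → z - ζ ≠ 0 ∧ v (z - ζ) = v ζ ∧ v ζ ≤ 0 := by
    intro ζ hn
    obtain ⟨h0, h1⟩ := far_ne hn
    have h3 := v.add_of_lt (neg_ne_zero.mpr h0) hz0
      (by rw [v.map_neg _ h0]; exact h1.trans_lt (hz hz0))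
    have h4 : z - ζ = -ζ + z := by ring
    rw [h4]
    exact ⟨h3.1, h3.2.trans (v.map_neg _ h0), h1⟩
  have hiff : ∀ ζ ∈ A.roots, (Near L v z ζ ↔ VPos v ζ) := by
    intro ζ hζ
    refine ⟨fun hn => ?_, hstar ζ hζ⟩
    by_contra hv
    obtain ⟨h0, h1, h2⟩ := hfar ζ hv
    have := hn h0 0
    rw [hal0, h1] at this
    exact absurd (hz hz0) (by linarith)
  have e1 : (A.roots.filter fun ζ => Near L v z ζ) = A.roots.filter fun ζ => VPos v ζ :=
    Multiset.filter_congr hiff
  have e2 : (A.roots.filter fun ζ => ¬ Near L v z ζ) = A.roots.filter fun ζ => ¬ VPos v ζ :=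
    Multiset.filter_congr fun ζ hζ => not_congr (hiff ζ hζ)
  obtain ⟨c1, c2⟩ := h.count hsp
  refine ⟨?_, ?_, fun ψ hψ ζ hζ hn => ?_⟩
  · unfold nN
    rw [e1]
    exact c1
  · have e3 : fS L v z A.roots = fP v A.roots := by
      unfold fS fP
      rw [e2]
      congr 1
      refine Multiset.map_congr rfl fun ζ hζ => ?_
      exact (hfar ζ (Multiset.mem_filter.mp hζ).2).2.1
    rw [ph, e3, c2]
  · obtain ⟨_, h1, h2⟩ := hfar ζ fun hv => hn (hstar ζ hζ hv)
    rw [h1]
    linarith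

end StarCase

end Pool.Agent.D2
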