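import Pool.Agent.Lib.D2_h17.Kap3

/-!
# DefectTwo, section 3a: summary
-/

set_option autoImplicit false

open Polynomial

namespace Pool.Agent.D2

open Pool.Agent.H15JM (RVal)
open Pool.Agent.LU1 (VPos val_add_vpos)

universe u w

/-- A valuation which is trivial on a field of constants has `NatU`. -/
theorem natU_of_triv {k : Type*} {Ω : Type u} [Field k] [Field Ω] [Algebra k Ω] {v : RVal Ω}
    (h : ∀ c : k, c ≠ 0 → v (algebraMap k Ω c) = 0) : NatU v := by
  intro n hn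
  have h1 : (algebraMap k Ω (n : k)) = (n : Ω) := map_natCast _ n
  rw [← h1]
  refine h _ ?_
  intro h0
  rw [h0, map_zero] at h1
  exact hn h1.symm

section Summary

variable {L : Type w} {Ω : Type u} [Field L] [Field Ω] [Algebra L Ω]
  {v : RVal Ω} {z : Ω}

theorem fa_zero (ψ : L) : Fa v z (0 : Polynomial L) ψ := by
  intro ζ hζ
  rw [Polynomial.map_zero, roots_zero] at hζ
  exact absurd hζ (Multiset.notMem_zero ζ)

theorem Star.ev_fa_hasse (hs : Star L v z) (P : Polynomial L) :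
    Ev v z fun ψ : L => ∀ i, Fa v z (hasseDeriv i P) ψ := by
  refine (Ev.all (Finset.range (P.natDegree + 1)) fun i _ => hs.ev_fa (hasseDeriv i P)).mono
    fun ψ hψ i => ?_
  by_cases hi : i < P.natDegree + 1
  · exact hψ i (Finset.mem_range.mpr hi)
  · rw [hasseDeriv_eq_zero_of_lt_natDegree P i (by omega)]
    exact fa_zero ψ

/-- All data of section 3a. `G` monic of least degree with a near root, `h = p ^ t` near roots,
`A = ∑ f s * G ^ s`, `s₀` the index of the terms of least value. -/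
structure KapData (v : RVal Ω) (z : Ω) (p : ℕ) (A : Polynomial L) where
  G : Polynomial L
  kg : KG v z G
  t : ℕ
  one_le : 1 ≤ t
  h_eq : nr v z G = p ^ t
  n : ℕ
  f : ℕ → Polynomial L
  deg : ∀ s, (f s).natDegree < G.natDegree
  f_zero : ∀ s, n ≤ s → f s = 0
  sum : A = ∑ s ∈ Finset.range n, f s * G ^ s
  s₀ : ℕ
  lt : s₀ < n
  ne : f s₀ ≠ 0
  nr_eq : nr v z A = s₀ * nr v z G
  phi_eq : phi v z A = phi v z (f s₀) + s₀ * phi v z G
  ev : Ev v z fun ψ : L => Fa v z A ψ ∧ (∀ i, Fa v z (hasseDeriv i G) ψ) ∧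
    (∀ s j, Fa v z (hasseDeriv j (f s)) ψ) ∧
    ∀ s, s ≠ s₀ → f s ≠ 0 →
      phi v z A + nr v z A * al v z ψ < phi v z (f s) + s * (phi v z G + nr v z G * al v z ψ)

theorem exists_kapData [SpL L Ω] (hs : Star L v z) (hk : NatU v) {p : ℕ} (hp : p.Prime)
    [CharP Ω p] {B : ℝ} (hB : ∀ ψ : L, al v z ψ ≤ B) {A : Polynomial L} (hA : A ≠ 0)
    (hm : 0 < nr v z A) : Nonempty (KapData v z p A) := by
  classical
  obtain ⟨G, hG, _⟩ := KG.exists hA hm
  obtain ⟨t, ht⟩ := hG.prime_pow hs hk hp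
  have h2 := hG.two_le hs hk hB
  have ht1 : 1 ≤ t := by
    by_contra h
    have : t = 0 := by omega
    rw [ht, this, pow_zero] at h2
    omega
  obtain ⟨n, f, hf, hf0, hsum⟩ := exists_expansion hG.monic hG.natDegree_pos A
  obtain ⟨s₀, hs₀, hne, e1, e2, e3⟩ := hG.expansion hs hk hA hf hsum
  refine ⟨⟨G, hG, t, ht1, ht, n, f, hf, hf0, hsum, s₀, hs₀, hne, e1, e2, ?_⟩⟩
  have h3 : Ev v z fun ψ : L => ∀ s j, Fa v z (hasseDeriv j (f s)) ψ := by
    refine (Ev.all (Finset.range n) fun s _ => hs.ev_fa_hasse (f s)).mono fun ψ hψ s j => ?_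
    by_cases hsn : s < n
    · exact hψ s (Finset.mem_range.mpr hsn) j
    · rw [hf0 s (by omega), LinearMap.map_zero]
      exact fa_zero ψ
  have h4 : Ev v z fun ψ : L => ∀ s ∈ Finset.range n, (s ≠ s₀ → f s ≠ 0 →
      phi v z A + nr v z A * al v z ψ
        < phi v z (f s) + s * (phi v z G + nr v z G * al v z ψ)) := by
    refine Ev.all _ fun s hsn => ?_
    by_cases h5 : s ≠ s₀ ∧ f s ≠ 0
    · exact (e3 s (Finset.mem_range.mp hsn) h5.1 h5.2).mono fun ψ hψ _ _ => hψ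
    · refine Ev.of_forall fun ψ h6 h7 => ?_
      exact absurd ⟨h6, h7⟩ h5
  exact ((hs.ev_fa A).and ((hs.ev_fa_hasse G).and (h3.and h4))).mono fun ψ hψ =>
    ⟨hψ.1, hψ.2.1, hψ.2.2.1, fun s hss hfs => hψ.2.2.2 s (Finset.mem_range.mpr (by
      by_contra hsn
      exact hfs (hf0 s (by omega)))) hss hfs⟩

end Summary

end Pool.Agent.D2
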